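import Mathlib
import Pool.Agent.H17.TMGrowth

set_option autoImplicit false

namespace Pool.Agent.Results.MP_7d59ed_nt.Limit

def t (n : ℕ) : ℤ := (-1) ^ (Nat.digits 2 n).sum

def h : ℕ → ℤ
  | 0 => 0
  | 1 => 1
  | (n + 2) => t (n + 2) * h (n + 1) + h n

theorem result : ∃ g : ℝ, 1.151 ≤ g ∧ g ≤ 1.154 ∧
    Filter.Tendsto (fun n : ℕ => |(h n : ℝ)| ^ (1 / (n : ℝ))) Filter.atTop (nhds g) := by
  have e : h = Pool.Agent.H17.TMFib.h := by
    funext n
    induction n using Nat.twoStepInduction with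
    | zero => rfl
    | one => rfl
    | more n h1 h2 => rw [h, Pool.Agent.H17.TMFib.h, h1, h2]; rfl
  rw [e]
  exact Pool.Agent.H17.TMGrowth.growth

end Pool.Agent.Results.MP_7d59ed_nt.Limit
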